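import Pool.Agent.H92.SG.Stmts

/-!
Module DIHA of board `sg7` (MP_046772_gt): basic properties of the dihedral action, I.
-/

set_option autoImplicit false

namespace Pool.Agent.H65.SG

open Pool.Agent.H92.SG

theorem dih_σ (A : Type) [CommRing A] (i : ℕ) (a : ℕ → A) : dih A (σ i) a =
    fun j => if j = i then a (i + 1) else if j = i + 1 then 2 * a (i + 1) - a i else a j := by
  have h : dih A (σ i) = dihGen A i := lift_σ _ _ _ i
  rw [h]; rfl

theorem dih_σ_inv (A : Type) [CommRing A] (i : ℕ) (a : ℕ → A) : dih A (σ i)⁻¹ a =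
    fun j => if j = i then 2 * a i - a (i + 1) else if j = i + 1 then a i else a j := by
  have h : dih A (σ i) = dihGen A i := lift_σ _ _ _ i
  rw [map_inv, h]; rfl

theorem dih_one_apply (A : Type) [CommRing A] (a : ℕ → A) : dih A 1 a = a := by
  rw [map_one]; rfl

theorem dih_mul_apply (A : Type) [CommRing A] (x y : B) (a : ℕ → A) :
    dih A (x * y) a = dih A x (dih A y a) := by
  rw [map_mul]; rfl

theorem dih_inv_self (A : Type) [CommRing A] (x : B) (a : ℕ → A) :
    dih A x⁻¹ (dih A x a) = a := by
  rw [← dih_mul_apply, inv_mul_cancel, dih_one_apply]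

theorem dih_self_inv (A : Type) [CommRing A] (x : B) (a : ℕ → A) :
    dih A x (dih A x⁻¹ a) = a := by
  rw [← dih_mul_apply, mul_inv_cancel, dih_one_apply]

theorem dih_nat (A A' : Type) [CommRing A] [CommRing A'] (f : A →+* A') (x : B) :
    ∀ a : ℕ → A, dih A' x (fun i => f (a i)) = fun i => f (dih A x a i) := by
  induction x using B_induction with
  | h1 => intro a; rw [dih_one_apply, dih_one_apply]
  | hs i =>
    intro a
    rw [dih_σ, dih_σ]
    funext j
    dsimp only
    split_ifs <;> simp [map_ofNat]
  | hm x y hx hy =>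
    intro a
    rw [dih_mul_apply, dih_mul_apply, hy, hx]
  | hi x hx =>
    intro a
    have h := hx (dih A x⁻¹ a)
    rw [dih_self_inv] at h
    rw [← h, dih_inv_self]

theorem dih_const (A : Type) [CommRing A] (x : B) (r : A) :
    dih A x (fun _ => r) = fun _ => r := by
  induction x using B_induction with
  | h1 => rw [dih_one_apply]
  | hs i =>
    rw [dih_σ]
    funext j
    split_ifs
    · rfl
    · ring
    · rfl
  | hm x y hx hy => rw [dih_mul_apply, hy, hx]
  | hi x hx =>
    have h := dih_inv_self A x (fun _ => r)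
    rwa [hx] at h

theorem dih_sh (A : Type) [CommRing A] (x : B) : ∀ a : ℕ → A, dih A (sh x) a 0 = a 0 ∧
    ∀ i, dih A (sh x) a (i + 1) = dih A x (fun j => a (j + 1)) i := by
  induction x using B_induction with
  | h1 => intro a; rw [map_one, dih_one_apply, dih_one_apply]; exact ⟨rfl, fun _ => rfl⟩
  | hs i =>
    intro a
    rw [sh_σ, dih_σ, dih_σ]
    refine ⟨?_, fun j => ?_⟩
    · dsimp only
      rw [if_neg (by omega), if_neg (by omega)]
    · dsimp only
      by_cases h1 : j = i
      · rw [if_pos (by omega), if_pos h1]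
      · by_cases h2 : j = i + 1
        · rw [if_neg (by omega), if_pos (by omega), if_neg h1, if_pos h2]
        · rw [if_neg (by omega), if_neg (by omega), if_neg h1, if_neg h2]
  | hm x y hx hy =>
    intro a
    rw [map_mul, dih_mul_apply]
    refine ⟨?_, fun i => ?_⟩
    · rw [(hx _).1, (hy _).1]
    · rw [(hx _).2, dih_mul_apply]
      have h : (fun j => dih A (sh y) a (j + 1)) = dih A y (fun j => a (j + 1)) :=
        funext fun j => (hy a).2 j
      rw [h]
  | hi x hx =>
    intro a
    have h := hx (dih A (sh x)⁻¹ a)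
    rw [dih_self_inv] at h
    rw [map_inv]
    refine ⟨h.1.symm, fun i => ?_⟩
    have h2 : (fun j => a (j + 1)) = dih A x (fun j => dih A (sh x)⁻¹ a (j + 1)) :=
      funext fun j => h.2 j
    rw [h2, dih_inv_self]

/-- DIHA -/
theorem DIHA_thm : DihA where
  σ_apply A _ i a := dih_σ A i a
  σ_inv_apply A _ i a := dih_σ_inv A i a
  nat A A' _ _ f x a := dih_nat A A' f x a
  const A _ x r := dih_const A x r
  sh0 A _ x a := (dih_sh A x a).1
  sh1 A _ x a i := (dih_sh A x a).2 i

end Pool.Agent.H65.SG
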