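import Pool.Agent.H92.SG.Stmts

/-!
Module PERM of board `sg7` (MP_046772_gt): braids on `n` strands permute the strands `0, …, n-1`.
-/

set_option autoImplicit false

namespace Pool.Agent.H65.SG

open Pool.Agent.H92.SG

theorem perm_aux (n : ℕ) {x : B} (hx : x ∈ Bn n) :
    (∀ i, n ≤ i → perm x i = i) ∧ (∀ i < n, perm x i < n) ∧ (∀ i < n, (perm x)⁻¹ i < n) := by
  refine Bn_induction (n := n)
    (p := fun x => (∀ i, n ≤ i → perm x i = i) ∧ (∀ i < n, perm x i < n) ∧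
      (∀ i < n, (perm x)⁻¹ i < n)) ?_ ?_ ?_ ?_ hx
  · refine ⟨fun i _ => by simp, fun i hi => by simpa using hi, fun i hi => by simpa using hi⟩
  · intro j hj
    rw [perm_σ]
    refine ⟨fun i hi => ?_, fun i hi => ?_, fun i hi => ?_⟩
    · exact Equiv.swap_apply_of_ne_of_ne (by omega) (by omega)
    · rw [Equiv.swap_apply_def]; split_ifs <;> omega
    · rw [Equiv.swap_inv, Equiv.swap_apply_def]; split_ifs <;> omega
  · rintro x - y - ⟨h1, h2, h3⟩ ⟨h4, h5, h6⟩
    refine ⟨fun i hi => ?_, fun i hi => ?_, fun i hi => ?_⟩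
    · rw [map_mul, Equiv.Perm.mul_apply, h4 i hi, h1 i hi]
    · rw [map_mul, Equiv.Perm.mul_apply]; exact h2 _ (h5 i hi)
    · rw [map_mul, mul_inv_rev, Equiv.Perm.mul_apply]; exact h6 _ (h3 i hi)
  · rintro x - ⟨h1, h2, h3⟩
    refine ⟨fun i hi => ?_, fun i hi => ?_, fun i hi => ?_⟩
    · rw [map_inv, Equiv.Perm.inv_eq_iff_eq]; exact (h1 i hi).symm
    · rw [map_inv]; exact h3 i hi
    · rw [map_inv, inv_inv]; exact h2 i hi

/-- PERM -/
theorem PERM_thm : PermStmt := fun n _ hx => ⟨(perm_aux n hx).1, (perm_aux n hx).2.1⟩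

end Pool.Agent.H65.SG
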