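import Pool.Agent.H92.SG.Stmts

/-!
Module N0Z of board `sg7` (MP_046772_gt): vanishing for the integral system.
-/

set_option autoImplicit false

namespace Pool.Agent.H65.SG

open Pool.Agent.H92.SG

/-- Extension by zero. -/
def n0z_ext {R : Type} [CommRing R] {N : ℕ} (v : Fin N → R) (i : ℕ) : R :=
  if h : i < N then v ⟨i, h⟩ else 0

theorem n0z_ext_lt {R : Type} [CommRing R] {N : ℕ} (v : Fin N → R) (i : Fin N) :
    n0z_ext v i = v i := by
  unfold n0z_ext
  rw [dif_pos i.2]

theorem n0z_ext_sum {R : Type} [CommRing R] {N : ℕ} (v : Fin N → R) :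
    n0z_ext v = ∑ j : Fin N, v j • (Pi.single (j : ℕ) (1 : R) : ℕ → R) := by
  funext i
  rw [Finset.sum_apply]
  by_cases h : i < N
  · rw [Finset.sum_eq_single (⟨i, h⟩ : Fin N)]
    · simp [n0z_ext, h]
    · intro b _ hb
      have : i ≠ (b : ℕ) := fun h' => hb (Fin.ext h'.symm)
      simp [Pi.single_eq_of_ne this]
    · intro h'; exact absurd (Finset.mem_univ _) h'
  · rw [Finset.sum_eq_zero]
    · simp [n0z_ext, h]
    · intro b _
      have : i ≠ (b : ℕ) := fun h' => h (h' ▸ b.2)
      simp [Pi.single_eq_of_ne this]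

/-- The matrix of the linear system. -/
def n0z_mat (N : ℕ) (l : List B) : Matrix ((Fin l.length × Fin N) ⊕ Unit) (Fin N) ℤ :=
  Matrix.of fun r j => match r with
    | Sum.inl (p, i) => dih ℤ (l.get p) (Pi.single (j : ℕ) 1) i - (Pi.single (j : ℕ) 1 : ℕ → ℤ) i
    | Sum.inr _ => if (j : ℕ) = 0 then 1 else 0

theorem n0z_row (hA : DihA) (R : Type) [CommRing R] (N : ℕ) (l : List B) (v : Fin N → R)
    (p : Fin l.length) (i : Fin N) :
    ((n0z_mat N l).map (Int.castRingHom R)).mulVec v (Sum.inl (p, i)) =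
      dih R (l.get p) (n0z_ext v) i - n0z_ext v i := by
  have hs : ∀ j : Fin N, (fun q : ℕ => Int.castRingHom R ((Pi.single (j : ℕ) 1 : ℕ → ℤ) q)) =
      (Pi.single (j : ℕ) (1 : R) : ℕ → R) := by
    intro j
    funext q
    by_cases h : q = (j : ℕ)
    · subst h; simp
    · simp [Pi.single_eq_of_ne h]
  have h1 : ∀ j : Fin N, Int.castRingHom R (n0z_mat N l (Sum.inl (p, i)) j) =
      dih R (l.get p) (Pi.single (j : ℕ) 1) i - (Pi.single (j : ℕ) (1 : R) : ℕ → R) i := by
    intro j
    have h2 := congrFun (hA.nat ℤ R (Int.castRingHom R) (l.get p) (Pi.single (j : ℕ) 1)) (i : ℕ)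
    have h3 := congrFun (hs j) (i : ℕ)
    rw [hs j] at h2
    rw [h2, ← h3, ← map_sub]
    rfl
  have h4 : dih R (l.get p) (n0z_ext v) (i : ℕ) =
      ∑ j : Fin N, v j * dih R (l.get p) (Pi.single (j : ℕ) 1) i := by
    rw [n0z_ext_sum, map_sum, Finset.sum_apply]
    refine Finset.sum_congr rfl fun j _ => ?_
    rw [map_smul, Pi.smul_apply, smul_eq_mul]
  have h5 : n0z_ext v (i : ℕ) = ∑ j : Fin N, v j * (Pi.single (j : ℕ) (1 : R) : ℕ → R) i := by
    conv_lhs => rw [n0z_ext_sum, Finset.sum_apply]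
    rfl
  rw [h4, h5, ← Finset.sum_sub_distrib]
  unfold Matrix.mulVec dotProduct
  refine Finset.sum_congr rfl fun j _ => ?_
  show Int.castRingHom R (n0z_mat N l (Sum.inl (p, i)) j) * v j = _
  rw [h1 j]
  ring

theorem n0z_row0 (R : Type) [CommRing R] (N : ℕ) (l : List B) (v : Fin N → R) :
    ((n0z_mat N l).map (Int.castRingHom R)).mulVec v (Sum.inr ()) = n0z_ext v 0 := by
  unfold Matrix.mulVec dotProduct
  by_cases h : 0 < N
  · rw [Finset.sum_eq_single (⟨0, h⟩ : Fin N)]
    · simp [n0z_mat, n0z_ext, h]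
    · intro b _ hb
      have : (b : ℕ) ≠ 0 := fun h' => hb (Fin.ext h')
      simp [n0z_mat, this]
    · intro h'; exact absurd (Finset.mem_univ _) h'
  · rw [Finset.sum_eq_zero]
    · simp [n0z_ext, h]
    · intro b _
      exact absurd (Nat.lt_of_le_of_lt (Nat.zero_le _) b.2) h

/-- N0Z -/
theorem N0Z_thm (hSPEC : SpecStmt) (hA : DihA) (hB : DihB) (hP : PermStmt) : N0ZStmt := by
  intro N l hl hC y hy hy0 hfix
  have hv : (fun i : Fin N => y i) = 0 := by
    refine hSPEC ℤ ℤ_[3] (ZMod 2) (Int.castRingHom (ZMod 2)) (Int.castRingHom ℤ_[3]) ?_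
      ((Fin l.length × Fin N) ⊕ Unit) (Fin N) (n0z_mat N l) ?_ (fun i : Fin N => y i) ?_
    · intro x hx
      have : x = 0 := by
        have h : ((x : ℤ) : ℤ_[3]) = 0 := hx
        exact_mod_cast h
      rw [this, map_zero]
    · intro v hv
      have h2 : (2 : ZMod 2) = 0 := by decide
      have hS := hC {i | n0z_ext v i = 0} (by
          have := congrFun hv (Sum.inr ())
          rw [n0z_row0] at this
          exact this) (by
          intro x hx i hi
          obtain ⟨hP1, hP2⟩ := hP N x (hl x hx)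
          by_cases hiN : i < N
          · obtain ⟨p, hp⟩ := List.get_of_mem hx
            have h3 := congrFun hv (Sum.inl (p, ⟨perm x i, hP2 i hiN⟩))
            rw [n0z_row hA, hp] at h3
            have h4 := hB.two (ZMod 2) h2 x (n0z_ext v) i
            have h5 : n0z_ext v (perm x i) = n0z_ext v i := by
              rw [← h4]; exact (sub_eq_zero.mp h3).symm
            show n0z_ext v (perm x i) = 0
            rw [h5]; exact hi
          · show n0z_ext v (perm x i) = 0
            rw [hP1 i (not_lt.mp hiN)]; exact hi)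
      funext i
      have := hS i i.2
      rw [← n0z_ext_lt v i]
      exact this
    · have hext : n0z_ext (fun i : Fin N => y i) = y := by
        funext i
        unfold n0z_ext
        split_ifs with h
        · rfl
        · exact (hy i (not_lt.mp h)).symm
      funext r
      rcases r with ⟨p, i⟩ | ⟨⟩
      · rw [n0z_row hA, hext, hfix _ (List.get_mem l p), sub_self]; rfl
      · rw [n0z_row0, hext, hy0]; rfl
  funext i
  by_cases h : i < N
  · exact congrFun hv ⟨i, h⟩
  · exact hy i (not_lt.mp h)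

end Pool.Agent.H65.SG
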